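import Mathlib.Algebra.Notation.Lemmas
import Mathlib.Data.ZMod.Basic
import Mathlib.Tactic.IntervalCases
import Mathlib.Tactic.LinearCombination
import Mathlib.Data.Int.Star
import Mathlib.Algebra.Order.Ring.Star
import Mathlib.Analysis.Normed.Field.Basic
import Mathlib.Algebra.Order.Star.Real
import Mathlib.NumberTheory.Zsqrtd.Basic
import Mathlib.Tactic.Algebra.Basic

/-!
The relative Pell equation over the ring of integers of the real quadratic field of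
discriminant 8, with congruence conditions.
-/

set_option autoImplicit false

namespace Pool.Agent.MP_54e5d7_al.ATC.NT

/-- The first real place. -/
noncomputable def t1 : ℤ√2 →+* ℝ :=
  Zsqrtd.lift ⟨√2, by rw [Real.mul_self_sqrt (by norm_num)]; norm_num⟩

/-- The second real place. -/
noncomputable def t2 : ℤ√2 →+* ℝ :=
  Zsqrtd.lift ⟨-√2, by rw [neg_mul_neg, Real.mul_self_sqrt (by norm_num)]; norm_num⟩

theorem t1_apply (x : ℤ√2) : t1 x = x.re + x.im * √2 := rfl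

theorem t2_apply (x : ℤ√2) : t2 x = x.re - x.im * √2 := by
  change (x.re : ℝ) + x.im * -√2 = _
  ring

theorem sq2 : √2 * √2 = (2 : ℝ) := Real.mul_self_sqrt (by norm_num)

theorem t1_mul_t2 (x : ℤ√2) : t1 x * t2 x = x.norm := by
  rw [t1_apply, t2_apply, Zsqrtd.norm_def]
  push_cast
  linear_combination -(x.im : ℝ) * x.im * sq2

theorem norm_ne {x : ℤ√2} (hx : x ≠ 0) : x.norm ≠ 0 := fun h =>
  hx ((Zsqrtd.norm_eq_zero (d := 2) (fun n hn => by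
    have h1 : n.natAbs * n.natAbs = 2 := by
      have := congrArg Int.natAbs hn
      rw [Int.natAbs_mul] at this
      exact this.symm
    have h2 : n.natAbs ≤ 1 := by nlinarith
    interval_cases n.natAbs <;> omega) x).1 h)

theorem t1_ne {x : ℤ√2} (hx : x ≠ 0) : t1 x ≠ 0 := fun h => by
  have h1 := t1_mul_t2 x
  rw [h, zero_mul] at h1
  exact norm_ne hx (by exact_mod_cast h1.symm)

theorem t2_ne {x : ℤ√2} (hx : x ≠ 0) : t2 x ≠ 0 := fun h => by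
  have h1 := t1_mul_t2 x
  rw [h, mul_zero] at h1
  exact norm_ne hx (by exact_mod_cast h1.symm)

theorem nzd : NoZeroDivisors (ℤ√2) := ⟨fun {x y} h => by
  by_contra h1
  rw [not_or] at h1
  exact mul_ne_zero (t1_ne h1.1) (t1_ne h1.2) (by rw [← map_mul, h, map_zero])⟩

theorem bdd_finite (B : ℝ) : {x : ℤ√2 | |t1 x| ≤ B ∧ |t2 x| ≤ B}.Finite := by
  refine Set.Finite.of_finite_image (f := fun x : ℤ√2 => (x.re, x.im))
    (((Set.finite_Icc (-⌈B⌉) ⌈B⌉).prod (Set.finite_Icc (-⌈B⌉) ⌈B⌉)).subset ?_)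
    fun x _ y _ h => Zsqrtd.ext (congrArg Prod.fst h) (congrArg Prod.snd h)
  rintro _ ⟨x, ⟨h1, h2⟩, rfl⟩
  rw [t1_apply, abs_le] at h1
  rw [t2_apply, abs_le] at h2
  have h3 := Int.le_ceil B
  have h4 : (1 : ℝ) ≤ √2 := Real.one_le_sqrt.2 (by norm_num)
  have h5 : |(x.im : ℝ)| ≤ B := by
    have h6 : |(x.im : ℝ) * √2| ≤ B := abs_le.2 ⟨by linarith, by linarith⟩
    rw [abs_mul, abs_of_nonneg (Real.sqrt_nonneg 2)] at h6
    nlinarith [abs_nonneg (x.im : ℝ)]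
  rw [abs_le] at h5
  refine ⟨⟨?_, ?_⟩, ?_, ?_⟩ <;> simp only <;> rw [← Int.cast_le (R := ℝ)] <;> push_cast <;>
    linarith

theorem small (δ : ℝ) (hδ : 0 ≤ δ) (Q : ℕ) : ∃ a b : ℤ√2, (a ≠ 0 ∨ b ≠ 0) ∧ |t2 a| ≤ 1 ∧
    |t2 b| ≤ 1 ∧ |t1 a + δ * t1 b| * (Q + 1) ≤ 4 * (1 + δ) ∧
    |t1 a - δ * t1 b| ≤ 4 * (1 + δ) * (Q + 1) := by
  obtain ⟨r, hr⟩ : ∃ r : ℕ → ℤ√2, ∀ m, r m = ⟨⌊(m : ℝ) * √2⌋, m⟩ := ⟨_, fun _ => rfl⟩
  have h4 : √2 ≤ (3 / 2 : ℝ) := Real.sqrt_le_iff.2 ⟨by norm_num, by norm_num⟩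
  have h1 : ∀ m, -1 ≤ t2 (r m) ∧ t2 (r m) ≤ 0 := fun m => by
    rw [t2_apply, hr]
    have := Int.floor_le ((m : ℝ) * √2)
    have := Int.lt_floor_add_one ((m : ℝ) * √2)
    constructor <;> push_cast <;> linarith
  have h2 : ∀ m : Fin (Q + 2), 0 ≤ t1 (r m) ∧ t1 (r m) ≤ 3 * (Q + 1) := fun m => by
    rw [t1_apply, hr]
    have h5 := Int.floor_le (((m : ℕ) : ℝ) * √2)
    have h6 : 0 ≤ ((m : ℕ) : ℝ) * √2 := by positivity
    have h7 : (0 : ℝ) ≤ ⌊((m : ℕ) : ℝ) * √2⌋ := by exact_mod_cast Int.floor_nonneg.2 h6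
    have h8 : ((m : ℕ) : ℝ) ≤ Q + 1 := by exact_mod_cast Nat.lt_succ_iff.1 m.2
    have h9 : ((m : ℕ) : ℝ) * √2 ≤ (Q + 1) * (3 / 2) := by gcongr
    constructor <;> push_cast <;> linarith
  have hC : 0 < 4 * (1 + δ) := by positivity
  have hQ : (0 : ℝ) < Q + 1 := by positivity
  obtain ⟨f, hf⟩ : ∃ f : Fin (Q + 2) × Fin (Q + 2) → ℝ,
      ∀ p, f p = (t1 (r p.1) + δ * t1 (r p.2)) * (Q + 1) / (4 * (1 + δ)) := ⟨_, fun _ => rfl⟩
  have h3 : ∀ p, 0 ≤ f p ∧ f p < ((Q + 1) * (Q + 1) : ℕ) := fun p => by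
    obtain ⟨h5, h6⟩ := h2 p.1
    obtain ⟨h7, h8⟩ := h2 p.2
    rw [hf]
    refine ⟨by positivity, ?_⟩
    rw [div_lt_iff₀ hC]
    push_cast
    have h9 := mul_le_mul_of_nonneg_left h8 hδ
    have h10 := mul_nonneg hδ hQ.le
    have h11 : t1 (r p.1) + δ * t1 (r p.2) < (Q + 1) * (4 * (1 + δ)) := by linarith
    nlinarith
  obtain ⟨p, q, hpq, he⟩ := Fintype.exists_ne_map_eq_of_card_lt
    (fun p => (⟨⌊f p⌋₊, (Nat.floor_lt (h3 p).1).2 (h3 p).2⟩ : Fin ((Q + 1) * (Q + 1))))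
    (by simp only [Fintype.card_fin, Fintype.card_prod]; nlinarith)
  have h5 : ⌊f p⌋₊ = ⌊f q⌋₊ := congrArg Fin.val he
  have h6 : |f p - f q| ≤ 1 := by
    have := Nat.floor_le (h3 p).1
    have := Nat.floor_le (h3 q).1
    have := Nat.lt_floor_add_one (f p)
    have := Nat.lt_floor_add_one (f q)
    rw [h5] at *
    exact abs_le.2 ⟨by linarith, by linarith⟩
  refine ⟨r p.1 - r q.1, r p.2 - r q.2, ?_, ?_, ?_, ?_, ?_⟩
  · by_contra h
    rw [not_or, not_not, not_not, sub_eq_zero, sub_eq_zero, hr, hr, hr, hr] at h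
    have h7 : ((p.1 : ℕ) : ℤ) = (q.1 : ℕ) := congrArg Zsqrtd.im h.1
    have h8 : ((p.2 : ℕ) : ℤ) = (q.2 : ℕ) := congrArg Zsqrtd.im h.2
    exact hpq (Prod.ext (Fin.ext (by exact_mod_cast h7)) (Fin.ext (by exact_mod_cast h8)))
  · rw [map_sub]
    exact abs_le.2 ⟨by linarith [h1 p.1, h1 q.1], by linarith [h1 p.1, h1 q.1]⟩
  · rw [map_sub]
    exact abs_le.2 ⟨by linarith [h1 p.2, h1 q.2], by linarith [h1 p.2, h1 q.2]⟩
  · rw [hf, hf, ← sub_div, abs_div, abs_of_pos hC, div_le_one hC, ← sub_mul, abs_mul,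
      abs_of_pos hQ] at h6
    rw [map_sub, map_sub]
    exact le_of_eq_of_le (by congr 2; ring) h6
  · rw [map_sub, map_sub]
    obtain ⟨h7, h8⟩ := h2 p.1
    obtain ⟨h9, h10⟩ := h2 q.1
    obtain ⟨h11, h12⟩ := h2 p.2
    obtain ⟨h13, h14⟩ := h2 q.2
    have := mul_le_mul_of_nonneg_left h12 hδ
    have := mul_le_mul_of_nonneg_left h14 hδ
    have := mul_nonneg hδ h11
    have := mul_nonneg hδ h13
    have := mul_nonneg hδ hQ.le
    exact abs_le.2 ⟨by linarith, by linarith⟩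

theorem pell {d M : ℤ√2} (h1 : 0 < t1 d) (h2 : t2 d < 0) (hM : M ≠ 0) :
    ∃ a b : ℤ√2, a ^ 2 - d * b ^ 2 = 1 ∧ b ≠ 0 ∧ M ∣ a - 1 ∧ M ∣ b := by
  have := nzd
  obtain ⟨δ, hδ, hd⟩ : ∃ δ : ℝ, 0 ≤ δ ∧ δ * δ = t1 d :=
    ⟨_, Real.sqrt_nonneg _, Real.mul_self_sqrt h1.le⟩
  choose a b h0 ha hb hl hl' using small δ hδ
  obtain ⟨N, hN⟩ : ∃ N : ℕ → ℤ√2, ∀ Q, N Q = a Q ^ 2 - d * b Q ^ 2 := ⟨_, fun _ => rfl⟩
  have e1 : ∀ Q, t1 (N Q) = (t1 (a Q) + δ * t1 (b Q)) * (t1 (a Q) - δ * t1 (b Q)) := fun Q => by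
    rw [hN, map_sub, map_mul, map_pow, map_pow, ← hd]
    ring
  have e2 : ∀ Q, t2 (N Q) = t2 (a Q) ^ 2 + -t2 d * t2 (b Q) ^ 2 := fun Q => by
    rw [hN, map_sub, map_mul, map_pow, map_pow]
    ring
  have hd' : 0 < -t2 d := by linarith
  have n0 : ∀ Q, N Q ≠ 0 := fun Q h => by
    have h3 := e2 Q
    rw [h, map_zero] at h3
    rcases h0 Q with h4 | h4
    · have := t2_ne h4
      have : 0 < t2 (a Q) ^ 2 + -t2 d * t2 (b Q) ^ 2 := by positivity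
      linarith
    · have := t2_ne h4
      have : 0 < t2 (a Q) ^ 2 + -t2 d * t2 (b Q) ^ 2 := by positivity
      linarith
  obtain ⟨B, hB⟩ : ∃ B : ℝ, ∀ Q, |t1 (N Q)| ≤ B ∧ |t2 (N Q)| ≤ B := by
    refine ⟨(4 * (1 + δ)) * (4 * (1 + δ)) + (1 + -t2 d), fun Q => ⟨?_, ?_⟩⟩
    · rw [e1, abs_mul]
      have h3 := mul_le_mul_of_nonneg_left (hl' Q) (abs_nonneg (t1 (a Q) + δ * t1 (b Q)))
      have h4 := mul_le_mul_of_nonneg_left (hl Q) (by positivity : 0 ≤ 4 * (1 + δ))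
      linarith
    · rw [e2, abs_of_nonneg (by positivity)]
      have h3 := (sq_le_one_iff_abs_le_one _).2 (ha Q)
      have h4 := mul_le_mul_of_nonneg_left ((sq_le_one_iff_abs_le_one _).2 (hb Q)) hd'.le
      have h5 : 0 ≤ (4 * (1 + δ)) * (4 * (1 + δ)) := by positivity
      linarith
  have hT := bdd_finite B
  obtain ⟨P, hP0, hP⟩ : ∃ P : ℕ, P ≠ 0 ∧ ∀ Q, N Q * M ∣ (P : ℤ√2) := by
    refine ⟨(∏ x ∈ hT.toFinset.erase 0, x * M).norm.natAbs, Int.natAbs_ne_zero.2 (norm_ne ?_),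
      fun Q => ?_⟩
    · exact Finset.prod_ne_zero_iff.2 fun x hx => mul_ne_zero (Finset.ne_of_mem_erase hx) hM
    · refine (Finset.dvd_prod_of_mem (fun x => x * M)
        (Finset.mem_erase.2 ⟨n0 Q, hT.mem_toFinset.2 (hB Q)⟩)).trans ?_
      generalize (∏ x ∈ hT.toFinset.erase 0, x * M) = y
      have h3 : y ∣ (y.norm : ℤ√2) := ⟨_, Zsqrtd.norm_eq_mul_conj y⟩
      refine h3.trans ?_
      rw [← Int.cast_natCast]
      exact map_dvd (Int.castRingHom (ℤ√2)) (Int.dvd_natAbs.2 (dvd_refl y.norm))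
  have : NeZero P := ⟨hP0⟩
  have := hT.to_subtype
  obtain ⟨c, hc⟩ := Finite.exists_infinite_fiber fun Q =>
    ((⟨N Q, hB Q⟩ : {x : ℤ√2 | |t1 x| ≤ B ∧ |t2 x| ≤ B}), (((a Q).re : ZMod P), ((a Q).im : ZMod P)),
      (((b Q).re : ZMod P), ((b Q).im : ZMod P)))
  have hc' := Set.infinite_coe_iff.1 hc
  obtain ⟨p, hp⟩ := hc'.nonempty
  have l0 : 0 < |t1 (a p) + δ * t1 (b p)| := abs_pos.2 fun h => t1_ne (n0 p) (by
    rw [e1, h, zero_mul])
  obtain ⟨q, hq, hq'⟩ := hc'.exists_gt ⌈4 * (1 + δ) / |t1 (a p) + δ * t1 (b p)|⌉₊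
  have he := (Set.mem_singleton_iff.1 hq).trans (Set.mem_singleton_iff.1 hp).symm
  simp only [Prod.mk.injEq, Subtype.mk.injEq] at he
  obtain ⟨h3, ⟨h4, h5⟩, h6, h7⟩ := he
  have dv : ∀ x y : ℤ√2, (x.re : ZMod P) = y.re → (x.im : ZMod P) = y.im →
      N p * M ∣ x - y := fun x y e e' => by
    refine (hP p).trans ?_
    rw [← Int.cast_natCast, Zsqrtd.intCast_dvd]
    exact ⟨(ZMod.intCast_eq_intCast_iff_dvd_sub _ _ _).1 e.symm,
      (ZMod.intCast_eq_intCast_iff_dvd_sub _ _ _).1 e'.symm⟩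
  obtain ⟨x, hx⟩ := dv _ _ h4 h5
  obtain ⟨y, hy⟩ := dv _ _ h6 h7
  have h8 := hN p
  have h9 := hN q
  rw [h3] at h9
  have h10 : (1 + M * (a p * x - d * b p * y)) ^ 2 - d * (M * (a p * y - b p * x)) ^ 2 = 1 := by
    refine sub_eq_zero.1 ((mul_eq_zero.1 (?_ : N p * _ = 0)).resolve_left (n0 p))
    have h11 : a q = a p + N p * M * x := by linear_combination hx
    have h12 : b q = b p + N p * M * y := by linear_combination hy
    rw [h11, h12] at h9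
    linear_combination h8 - h9 - N p * M ^ 2 * (x ^ 2 - d * y ^ 2) * h8
  refine ⟨1 + M * (a p * x - d * b p * y), M * (a p * y - b p * x), h10, fun h => ?_,
    ⟨_, add_sub_cancel_left _ _⟩, ⟨_, rfl⟩⟩
  have h11 : a q = (1 + M * (a p * x - d * b p * y)) * a p := by
    linear_combination hx + M * x * h8 + d * b p * h
  have h12 : b q = (1 + M * (a p * x - d * b p * y)) * b p := by
    linear_combination hy + M * y * h8 + a p * h
  rw [h] at h10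
  generalize 1 + M * (a p * x - d * b p * y) = u at h10 h11 h12
  have h13 : |t1 u| = 1 := by
    have h14 := congrArg t1 h10
    rw [map_sub, map_mul, map_pow, map_pow, map_zero, map_one] at h14
    exact sq_eq_sq_iff_abs_eq_abs _ 1 |>.1 (by linarith) |>.trans abs_one
  have h14 := hl q
  rw [h11, h12, map_mul, map_mul, mul_left_comm, ← mul_add, abs_mul, h13, one_mul] at h14
  have h15 := Nat.lt_of_ceil_lt hq'
  rw [div_lt_iff₀ l0] at h15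
  nlinarith

end Pool.Agent.MP_54e5d7_al.ATC.NT
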