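import Pool.Agent.MP_54e5d7_al.atc.nt.Elt
import Pool.Agent.MP_54e5d7_al.atc.Hol1

/-!
PROJECT ATC, block NT: the tower.
-/

set_option autoImplicit false

open Matrix

namespace Pool.Agent.MP_54e5d7_al.Atc.Ar

open Pool.Agent.MP_54e5d7_al.ATC.NT

theorem cong_rep (k : ℕ) : Cong wp (rep (17 ^ (k + 1))) := fun g => by
  obtain ⟨Y, hY⟩ := rep_cong g
  obtain ⟨c, hc⟩ : wp ∣ (17 : O) ^ (k + 1) := dvd_pow ⟨_, wp_sev⟩ k.succ_ne_zero
  refine ⟨c • Y, ?_⟩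
  rw [hY, smul_smul, ← hc]
  push_cast
  rfl

/-- the matrices of the stabiliser of a vector -/
noncomputable def repS (M : ℕ) (x : V3) : ↥(Gam M ⊓ Atc.stab x) →* M3 :=
  (rep M).comp (Subgroup.inclusion inf_le_left)

theorem cong_repS (k : ℕ) (x : V3) : Cong wp (repS (17 ^ (k + 1)) x) := fun _ => cong_rep k _

theorem full_of_vec (k : ℕ) {x : V3} (hx : H x x = 1) {v : L3} (hv : v ∈ Vec) {a : ℂ}
    (ha : x = a • e1 v) : ∃ i, 1 ≤ i ∧ Full wp (repS (17 ^ (k + 1)) x) i := by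
  have hp : 0 < (s1 (hO v v)).re := by
    rw [ha, H_smul_left, H_smul_right, ← mul_assoc, Complex.mul_conj, H_e1] at hx
    have h1 := congrArg Complex.re hx
    rw [Complex.re_ofReal_mul, Complex.one_re] at h1
    by_contra h2
    have := mul_nonpos_of_nonneg_of_nonpos (Complex.normSq_nonneg a) (not_lt.1 h2)
    linarith
  obtain ⟨i, hi, g₁, g₂, Z₁, Z₂, a₁, a₂, b₁, b₂, h⟩ := exists_full hv hp k
  have h1 : ∀ g : ↥(Gam (17 ^ (k + 1))), rep _ g *ᵥ v = v → g.1 ∈ Atc.stab x := fun g hg => by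
    change mv g.1 x = x
    rw [ha, mv_smul, mv_e1, hg]
  exact ⟨i, hi, ⟨g₁.1, g₁.2, h1 _ a₁⟩, ⟨g₂.1, g₂.2, h1 _ a₂⟩, Z₁, Z₂, b₁, b₂, h⟩

theorem conj_lev {R R' Z : M3} {i : ℕ} (h : R * R' = 1) {A A' : M3} (hA : R = 1 + wp • A)
    (hA' : R' = 1 + wp • A') : R * (1 + wp ^ i • Z) * R' =
      1 + wp ^ i • ((1 : O) • Z + wp • (A * Z + Z * A' + wp • (A * Z * A'))) := by
  rw [mul_add, mul_one, add_mul, h, mul_smul_comm, smul_mul_assoc, hA, hA']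
  simp only [add_mul, mul_add, one_mul, mul_one, smul_mul_assoc, mul_smul_comm]
  module

theorem conj_mem_stab {x : V3} {g : SU21} (hg : g ∈ Atc.stab x) (γ : SU21) :
    γ * g * γ⁻¹ ∈ Atc.stab (mv γ x) := by
  have h1 : mv g x = x := hg
  have h2 : mv (γ * g * γ⁻¹) (mv γ x) = mv γ x := by
    rw [← mv_mul, inv_mul_cancel_right, mv_mul, h1]
  exact h2

theorem full_mv {M : ℕ} (hC : Cong wp (rep M)) {x : V3} {i : ℕ} (h : Full wp (repS M x) i)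
    (γ : ↥(Gam M)) : Full wp (repS M (mv γ.1 x)) i := by
  obtain ⟨g₁, g₂, Z₁, Z₂, b₁, b₂, h⟩ := h
  obtain ⟨A, hA⟩ := hC γ
  obtain ⟨A', hA'⟩ := hC γ⁻¹
  have h1 : rep M γ * rep M γ⁻¹ = 1 := by rw [← map_mul, mul_inv_cancel, map_one]
  have key : ∀ (g : ↥(Gam M ⊓ Atc.stab x)) (Z : M3), repS M x g = 1 + wp ^ i • Z →
      ∃ (g' : ↥(Gam M ⊓ Atc.stab (mv γ.1 x))) (A : M3),
        repS M (mv γ.1 x) g' = 1 + wp ^ i • ((1 : O) • Z + wp • A) := fun g Z hg => by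
    have h2 : rep M (Subgroup.inclusion inf_le_left g) = 1 + wp ^ i • Z := hg
    have h3 := conj_lev (Z := Z) (i := i) h1 hA hA'
    rw [← h2, ← map_mul, ← map_mul] at h3
    exact ⟨⟨(γ * Subgroup.inclusion inf_le_left g * γ⁻¹).1,
      (γ * Subgroup.inclusion inf_le_left g * γ⁻¹).2, conj_mem_stab g.2.2 γ.1⟩, _, h3⟩
  obtain ⟨g₁', A₁, c₁⟩ := key g₁ Z₁ b₁
  obtain ⟨g₂', A₂, c₂⟩ := key g₂ Z₂ b₂
  exact ⟨g₁', g₂', _, _, c₁, c₂, h.mod (u' := 1) (by simp) A₁ A₂⟩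

theorem tower_of (k : ℕ) {X : Set V3} {I : ℕ} (hI : 1 ≤ I)
    (h : ∀ x ∈ X, Full wp (repS (17 ^ (k + 1)) x) I) : Tower (Gam (17 ^ (k + 1))) X := by
  intro c
  obtain ⟨e, he⟩ := index_pow deg1 (cong_rep k) (I + (I + c))
  have h1 := (index_le deg1 (cong_rep k) (I + (I + c))).2
  refine ⟨I + (I + c), e, (ATC.NT.stab (cong_rep k) (I + (I + c))).map (Subgroup.subtype _),
    Subgroup.map_subtype_le _, ?_, ?_, fun x hx => ?_⟩
  · rw [← he, Subgroup.relIndex, Subgroup.subgroupOf,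
      Subgroup.comap_map_eq_self_of_injective (Subgroup.subtype_injective _)]
  · rw [he] at h1
    exact (Nat.pow_le_pow_iff_right (by norm_num)).1 h1
  · have h2 := (h x hx).index deg1 (cong_repS k x) hI (I + c)
    have h3 : ((ATC.NT.stab (cong_rep k) (I + (I + c))).map (Subgroup.subtype _) ⊓
        Atc.stab x).subgroupOf (Gam (17 ^ (k + 1)) ⊓ Atc.stab x) =
        ATC.NT.stab (cong_repS k x) (I + (I + c)) := by
      ext g
      constructor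
      · rintro ⟨⟨g', h4, h5⟩, -⟩
        have h6 : g' = Subgroup.inclusion inf_le_left g := Subtype.ext h5
        rw [h6] at h4
        exact h4
      · exact fun h4 => ⟨⟨Subgroup.inclusion inf_le_left g, h4, rfl⟩, g.2.2⟩
    rw [Subgroup.relIndex, h3, show I + (I + c) + c = 2 * (I + c) by ring]
    exact h2

theorem tow_of (k : ℕ) {X : Set V3} (h1 : ∀ x ∈ X, H x x = 1)
    (h2 : ∀ x ∈ X, ∃ v ∈ Vec, ∃ a : ℂ, x = a • e1 v) {J : ℕ} {t : Fin J → V3} (h3 : ∀ j, t j ∈ X)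
    (h4 : ∀ x ∈ X, ∃ j, ∃ γ ∈ Gam (17 ^ (k + 1)), mv γ (t j) = x) :
    Tower (Gam (17 ^ (k + 1))) X := by
  have h5 : ∀ j, ∃ i, 1 ≤ i ∧ Full wp (repS (17 ^ (k + 1)) (t j)) i := fun j => by
    obtain ⟨v, hv, a, ha⟩ := h2 _ (h3 j)
    exact full_of_vec k (h1 _ (h3 j)) hv ha
  choose i hi hf using h5
  refine tower_of k (I := Finset.univ.sup i + 1) (Nat.le_add_left _ _) fun x hx => ?_
  obtain ⟨j, γ, hγ, rfl⟩ := h4 x hx
  refine full_mv (cong_rep k) ?_ ⟨γ, hγ⟩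
  have h6 : i j ≤ Finset.univ.sup i + 1 := (Finset.le_sup (Finset.mem_univ j)).trans (Nat.le_succ _)
  exact Nat.le_induction (hf j) (fun n hn h => h.succ deg1 ((hi j).trans hn)) _ h6

theorem tow : TowStmt := by
  intro k X ε h1 h2 h3
  obtain ⟨J, t, h4, h5, -⟩ := h2.reps h1
  exact tow_of k h2.unit h3 h4 h5

end Pool.Agent.MP_54e5d7_al.Atc.Ar
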