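import Mathlib.Tactic.Abel
import Mathlib.Tactic.Module
import Mathlib.Data.Matrix.Basic
import Mathlib.Algebra.Ring.GeomSum
import Mathlib.GroupTheory.GroupAction.Ring
import Mathlib.Tactic.LinearCombination
import Mathlib.GroupTheory.PGroup
import Mathlib.Algebra.Order.Ring.Star
import Mathlib.Tactic.NormNum.Prime

/-!
Congruence subgroups at a prime of degree one over 17: the stabiliser of a point of the
projective plane modulo a power of the prime.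
-/

set_option autoImplicit false

namespace Pool.Agent.MP_54e5d7_al.ATC.NT

open Matrix

variable {O : Type} [CommRing O]

/-- `w` generates a prime of degree one over 17. -/
structure Deg1 (w : O) : Prop where
  sev : ∃ u u' : O, (17 : O) = w * u ∧ w ∣ u * u' - 1
  res : ∀ x : O, ∃ n : ℕ, w ∣ x - n
  int : ∀ n : ℤ, w ∣ (n : O) → (17 : ℤ) ∣ n
  ne : w ≠ 0

theorem inv_pow_of {w l : O} (h : w ∣ l - 1) (b : ℕ) : ∃ l', w ^ b ∣ l * l' - 1 := by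
  obtain ⟨c, hc⟩ := h
  refine ⟨∑ j ∈ Finset.range b, (-(w * c)) ^ j, ?_⟩
  have h1 := geom_sum_mul (-(w * c)) b
  have h2 : l = 1 + w * c := by linear_combination hc
  refine ⟨-(-c) ^ b, ?_⟩
  have h3 : (-(w * c)) ^ b = w ^ b * (-c) ^ b := by rw [← mul_pow]; ring
  rw [h2]
  linear_combination -h1 - h3

theorem Deg1.res_pow {w : O} (hw : Deg1 w) (b : ℕ) (x : O) :
    ∃ n : ℕ, n < 17 ^ b ∧ w ^ b ∣ x - n := by
  obtain ⟨u, u', h1, c, h2⟩ := hw.sev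
  have h17 : ∀ b : ℕ, w ^ b ∣ (17 : O) ^ b := fun b => pow_dvd_pow_of_dvd ⟨u, h1⟩ b
  have key : ∀ b : ℕ, ∀ x : O, ∃ n : ℕ, w ^ b ∣ x - n := by
    intro b
    induction b with
    | zero => exact fun x => ⟨0, by simp⟩
    | succ b ih =>
      intro x
      obtain ⟨n, y, hy⟩ := ih x
      obtain ⟨m, z, hz⟩ := hw.res (y * u' ^ b)
      have h3 : w ∣ (u * u') ^ b - 1 := by
        have := sub_dvd_pow_sub_pow (u * u') 1 b
        rw [one_pow] at this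
        exact dvd_trans ⟨c, h2⟩ this
      obtain ⟨c', hc'⟩ := h3
      refine ⟨n + 17 ^ b * m, u ^ b * z - y * c', ?_⟩
      have h4 : (17 : O) ^ b = w ^ b * u ^ b := by rw [h1, mul_pow]
      rw [mul_pow] at hc'
      push_cast
      rw [h4]
      linear_combination hy + w ^ b * u ^ b * hz - w ^ b * y * hc'
  obtain ⟨n, hn⟩ := key b x
  refine ⟨n % 17 ^ b, Nat.mod_lt _ (by positivity), ?_⟩
  have h5 : (n : O) = (n % 17 ^ b : ℕ) + 17 ^ b * (n / 17 ^ b : ℕ) := by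
    exact_mod_cast congrArg (Nat.cast : ℕ → O) (Nat.mod_add_div n (17 ^ b)).symm
  have h6 : x - (n % 17 ^ b : ℕ) = (x - n) + 17 ^ b * (n / 17 ^ b : ℕ) := by
    linear_combination h5
  rw [h6]
  exact dvd_add hn ((h17 b).mul_right _)

/-- The square matrices of size three. -/
abbrev Mt (O : Type) := Matrix (Fin 3) (Fin 3) O

/-- The vector `(1, 1, 1)`. -/
def pt : Fin 3 → O := fun _ => 1

theorem one_add_pow (B : Mt O) (n : ℕ) :
    ∃ C : Mt O, (1 + B) ^ n = 1 + (n : O) • B + (n.choose 2 : O) • (B * B) + B * B * B * C := by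
  induction n with
  | zero => exact ⟨0, by simp⟩
  | succ n ih =>
    obtain ⟨C, hC⟩ := ih
    refine ⟨(n.choose 2 : O) • (1 : Mt O) + C * (1 + B), ?_⟩
    rw [pow_succ, hC, Nat.choose_succ_succ' n 1, Nat.choose_one_right]
    push_cast
    simp only [add_mul, mul_add, mul_one, one_mul, smul_mul_assoc, mul_smul_comm, add_smul,
      one_smul, mul_assoc]
    abel

theorem pow_lev {w : O} {i : ℕ} (hi : 1 ≤ i) (Z : Mt O) (n : ℕ) :
    ∃ A : Mt O, (1 + w ^ i • Z) ^ n = 1 + w ^ i • ((n : O) • Z + w • A) := by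
  obtain ⟨C, hC⟩ := one_add_pow (w ^ i • Z) n
  obtain ⟨j, rfl⟩ : ∃ j, i = j + 1 := ⟨i - 1, by omega⟩
  refine ⟨(w ^ j * n.choose 2) • (Z * Z) + (w ^ j * w ^ (j + 1)) • (Z * Z * Z * C), ?_⟩
  rw [hC]
  simp only [smul_mul_assoc, mul_smul_comm, smul_add, smul_smul]
  module

theorem pow_sev {w u : O} (hu : (17 : O) = w * u) {i : ℕ} (hi : 1 ≤ i) (Z : Mt O) :
    ∃ A : Mt O, (1 + w ^ i • Z) ^ 17 = 1 + w ^ (i + 1) • (u • Z + w • A) := by
  obtain ⟨C, hC⟩ := one_add_pow (w ^ i • Z) 17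
  obtain ⟨j, rfl⟩ : ∃ j, i = j + 1 := ⟨i - 1, by omega⟩
  refine ⟨(w ^ j * (8 * u)) • (Z * Z) + (w ^ j * w ^ j) • (Z * Z * Z * C), ?_⟩
  have h1 : ((17 : ℕ) : O) = w * u := by exact_mod_cast hu
  have h2 : (((17 : ℕ).choose 2 : ℕ) : O) = 8 * (w * u) := by
    rw [← hu, show (17 : ℕ).choose 2 = 136 from rfl]
    norm_num
  rw [hC, h1, h2]
  simp only [smul_mul_assoc, mul_smul_comm, smul_add, smul_smul]
  module

variable {G : Type} [Group G]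

/-- All matrices of the group are congruent to the identity. -/
def Cong (w : O) (ρ : G →* Mt O) : Prop := ∀ g, ∃ A : Mt O, ρ g = 1 + w • A

theorem Cong.pt_one {w : O} {ρ : G →* Mt O} (h : Cong w ρ) (g : G) (j : Fin 3) :
    w ∣ (ρ g *ᵥ pt) j - 1 := by
  obtain ⟨A, hA⟩ := h g
  refine ⟨(A *ᵥ pt) j, ?_⟩
  rw [hA, add_mulVec, one_mulVec, smul_mulVec]
  simp [pt]

/-- The stabiliser of the point `[1:1:1]` modulo `w ^ b`. -/
def stab {w : O} {ρ : G →* Mt O} (h : Cong w ρ) (b : ℕ) : Subgroup G where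
  carrier := {g | ∃ (l : O) (z : Fin 3 → O), ρ g *ᵥ pt = l • pt + w ^ b • z}
  one_mem' := ⟨1, 0, by simp⟩
  mul_mem' := by
    rintro g g' ⟨l, z, h1⟩ ⟨l', z', h2⟩
    refine ⟨l' * l, l' • z + ρ g *ᵥ z', ?_⟩
    rw [map_mul, ← mulVec_mulVec, h2, mulVec_add, mulVec_smul, mulVec_smul, h1]
    module
  inv_mem' := by
    rintro g ⟨l, z, h1⟩
    rcases Nat.eq_zero_or_pos b with rfl | hb
    · exact ⟨0, ρ g⁻¹ *ᵥ pt, by simp⟩
    have h2 : w ∣ l - 1 := by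
      have h3 := h.pt_one g 0
      rw [h1] at h3
      have h4 : w ∣ w ^ b * z 0 := (dvd_pow_self w hb.ne').mul_right _
      have h5 : l - 1 = (l • (pt : Fin 3 → O) + w ^ b • z) 0 - 1 - w ^ b * z 0 := by
        simp [pt]
        ring
      rw [h5]
      exact dvd_sub h3 h4
    obtain ⟨l', c, hc⟩ := inv_pow_of h2 b
    have h6 : (pt : Fin 3 → O) = l • (ρ g⁻¹ *ᵥ pt) + w ^ b • (ρ g⁻¹ *ᵥ z) := by
      rw [← mulVec_smul, ← mulVec_smul, ← mulVec_add, ← h1, mulVec_mulVec, ← map_mul,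
        inv_mul_cancel, map_one, one_mulVec]
    refine ⟨l', -(c • (ρ g⁻¹ *ᵥ pt)) - l' • (ρ g⁻¹ *ᵥ z), ?_⟩
    have h7 : (l * l') = 1 + w ^ b * c := by linear_combination hc
    have h8 : l' • (pt : Fin 3 → O) =
        (l * l') • (ρ g⁻¹ *ᵥ pt) + (l' * w ^ b) • (ρ g⁻¹ *ᵥ z) := by
      conv_lhs => rw [h6]
      module
    rw [h8, h7]
    module

variable {w : O} {ρ : G →* Mt O}

theorem mem_stab (h : Cong w ρ) {b : ℕ} {g : G} :
    g ∈ stab h b ↔ ∃ (l : O) (z : Fin 3 → O), ρ g *ᵥ pt = l • pt + w ^ b • z := Iff.rfl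

theorem inv_mul_mem (h : Cong w ρ) {b : ℕ} {g g' : G} :
    g⁻¹ * g' ∈ stab h b ↔
      ∃ (l : O) (z : Fin 3 → O), ρ g' *ᵥ pt = l • (ρ g *ᵥ pt) + w ^ b • z := by
  constructor
  · rintro ⟨l, z, h1⟩
    refine ⟨l, ρ g *ᵥ z, ?_⟩
    rw [← mulVec_smul, ← mulVec_smul, ← mulVec_add, ← h1, mulVec_mulVec, ← map_mul,
      mul_inv_cancel_left]
  · rintro ⟨l, z, h1⟩
    refine ⟨l, ρ g⁻¹ *ᵥ z, ?_⟩
    rw [map_mul, ← mulVec_mulVec, h1, mulVec_add, mulVec_smul, mulVec_smul, mulVec_mulVec,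
      ← map_mul, inv_mul_cancel, map_one, one_mulVec]

theorem stab_anti (h : Cong w ρ) (b : ℕ) : stab h (b + 1) ≤ stab h b := by
  rintro g ⟨l, z, h1⟩
  exact ⟨l, w • z, by rw [h1, smul_smul, pow_succ]⟩

theorem index_le (hw : Deg1 w) (h : Cong w ρ) (b : ℕ) :
    (stab h b).index ≠ 0 ∧ (stab h b).index ≤ 17 ^ (2 * b) := by
  have h1 : ∀ g : G, ∃ n : Fin (17 ^ b) × Fin (17 ^ b), ∃ z : Fin 3 → O,
      ρ g *ᵥ pt = (ρ g *ᵥ pt) 0 • (![1, (n.1 : ℕ), (n.2 : ℕ)] : Fin 3 → O) + w ^ b • z := by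
    intro g
    obtain ⟨l', c, hc⟩ := inv_pow_of (h.pt_one g 0) b
    obtain ⟨n1, h1, c1, h1'⟩ := hw.res_pow b ((ρ g *ᵥ pt) 1 * l')
    obtain ⟨n2, h2, c2, h2'⟩ := hw.res_pow b ((ρ g *ᵥ pt) 2 * l')
    refine ⟨(⟨n1, h1⟩, ⟨n2, h2⟩), ![0, (ρ g *ᵥ pt) 0 * c1 - (ρ g *ᵥ pt) 1 * c,
      (ρ g *ᵥ pt) 0 * c2 - (ρ g *ᵥ pt) 2 * c], ?_⟩
    generalize ρ g *ᵥ pt = y at *
    funext j
    fin_cases j
    · simp
    · simp
      linear_combination y 0 * h1' - y 1 * hc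
    · simp
      linear_combination y 0 * h2' - y 2 * hc
  choose F z hF using h1
  have h2 : ∀ g g', F g = F g' → g⁻¹ * g' ∈ stab h b := by
    intro g g' he
    obtain ⟨l', c, hc⟩ := inv_pow_of (h.pt_one g 0) b
    have h3 := hF g
    have h4 := hF g'
    rw [← he] at h4
    refine (inv_mul_mem h).2 ⟨(ρ g' *ᵥ pt) 0 * l', z g' - ((ρ g' *ᵥ pt) 0 * l') • z g -
      ((ρ g' *ᵥ pt) 0 * c) • (![1, ((F g).1 : ℕ), ((F g).2 : ℕ)] : Fin 3 → O), ?_⟩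
    generalize (![1, ((F g).1 : ℕ), ((F g).2 : ℕ)] : Fin 3 → O) = v at *
    generalize (ρ g *ᵥ pt) 0 = y0 at *
    generalize (ρ g' *ᵥ pt) 0 = y0' at *
    rw [h3, h4]
    funext j
    simp only [Pi.add_apply, Pi.sub_apply, Pi.smul_apply, smul_eq_mul]
    linear_combination -(y0' * v j) * hc
  have h3 : Function.Injective fun q : G ⧸ stab h b => F q.out := by
    intro q q' he
    rw [← q.out_eq', ← q'.out_eq']
    exact QuotientGroup.eq.2 (h2 _ _ he)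
  have : Finite (G ⧸ stab h b) := Finite.of_injective _ h3
  refine ⟨Subgroup.index_ne_zero_of_finite, ?_⟩
  have h4 := Nat.card_le_card_of_injective _ h3
  rw [Nat.card_prod, Nat.card_fin, ← pow_add, ← two_mul] at h4
  exact h4

theorem pow_cong (hw : Deg1 w) (h : Cong w ρ) (g : G) (b : ℕ) :
    ∃ A : Mt O, ρ (g ^ 17 ^ b) = 1 + w ^ (b + 1) • A := by
  obtain ⟨u, u', h1, -⟩ := hw.sev
  induction b with
  | zero => simpa using h g
  | succ b ih =>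
    obtain ⟨A, hA⟩ := ih
    obtain ⟨A', hA'⟩ := pow_sev h1 (Nat.le_add_left 1 b) A
    exact ⟨_, by rw [pow_succ 17, pow_mul, map_pow, hA, hA']⟩

theorem index_pow (hw : Deg1 w) (h : Cong w ρ) (b : ℕ) : ∃ e, (stab h b).index = 17 ^ e := by
  have : Fact (Nat.Prime 17) := ⟨by norm_num⟩
  have : (stab h b).FiniteIndex := ⟨(index_le hw h b).1⟩
  have h1 : IsPGroup 17 (G ⧸ (stab h b).normalCore) := by
    intro q
    obtain ⟨g, rfl⟩ := QuotientGroup.mk_surjective q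
    refine ⟨b, ?_⟩
    rw [← QuotientGroup.mk_pow, QuotientGroup.eq_one_iff]
    intro k
    obtain ⟨A, hA⟩ := pow_cong hw h (k * g * k⁻¹) b
    rw [conj_pow] at hA
    refine ⟨1, w • (A *ᵥ pt), ?_⟩
    rw [hA, add_mulVec, one_mulVec, smul_mulVec, one_smul, smul_smul, pow_succ]
  obtain ⟨n, hn⟩ := h1.exists_card_eq
  have h2 : (stab h b).index ∣ 17 ^ n :=
    hn ▸ Subgroup.index_dvd_of_le (stab h b).normalCore_le
  obtain ⟨e, -, he⟩ := (Nat.dvd_prime_pow (by norm_num)).1 h2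
  exact ⟨e, he⟩

/-- Two matrices move the point in two independent directions. -/
structure Indep (w : O) (Z₁ Z₂ : Mt O) : Prop where
  fst : w ∣ (Z₁ *ᵥ pt) 0
  snd : w ∣ (Z₂ *ᵥ pt) 0
  ind : ∀ s t : O, (∀ j, w ∣ s * (Z₁ *ᵥ pt) j + t * (Z₂ *ᵥ pt) j) → w ∣ s ∧ w ∣ t

theorem Indep.mod {Z₁ Z₂ : Mt O} (h : Indep w Z₁ Z₂) {u u' : O} (hu : w ∣ u * u' - 1)
    (A₁ A₂ : Mt O) : Indep w (u • Z₁ + w • A₁) (u • Z₂ + w • A₂) := by
  have e : ∀ (Z A : Mt O) (j : Fin 3),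
      ((u • Z + w • A) *ᵥ pt) j = u * (Z *ᵥ pt) j + w * (A *ᵥ pt) j := fun Z A j => by
    rw [add_mulVec, smul_mulVec, smul_mulVec]
    rfl
  refine ⟨?_, ?_, fun s t hst => ?_⟩
  · rw [e]
    exact dvd_add (h.fst.mul_left _) (dvd_mul_right _ _)
  · rw [e]
    exact dvd_add (h.snd.mul_left _) (dvd_mul_right _ _)
  · obtain ⟨h1, h2⟩ := h.ind (s * u) (t * u) fun j => by
      have h3 := hst j
      rw [e, e] at h3
      have h4 := dvd_sub h3 (dvd_mul_right w (s * (A₁ *ᵥ pt) j + t * (A₂ *ᵥ pt) j))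
      exact (congrArg (w ∣ ·) (by ring)).mp h4
    have h5 : ∀ s : O, w ∣ s * u → w ∣ s := fun s hs =>
      (congrArg (w ∣ ·) (by ring)).mp (dvd_sub (hs.mul_right u') (hu.mul_left s))
    exact ⟨h5 s h1, h5 t h2⟩

/-- The group moves the point in all directions at level `i`. -/
def Full (w : O) (ρ : G →* Mt O) (i : ℕ) : Prop :=
  ∃ (g₁ g₂ : G) (Z₁ Z₂ : Mt O), ρ g₁ = 1 + w ^ i • Z₁ ∧ ρ g₂ = 1 + w ^ i • Z₂ ∧ Indep w Z₁ Z₂

theorem Full.succ (hw : Deg1 w) {i : ℕ} (hi : 1 ≤ i) (h : Full w ρ i) : Full w ρ (i + 1) := by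
  obtain ⟨u, u', h1, h2⟩ := hw.sev
  obtain ⟨g₁, g₂, Z₁, Z₂, e₁, e₂, h3⟩ := h
  obtain ⟨A₁, hA₁⟩ := pow_sev h1 hi Z₁
  obtain ⟨A₂, hA₂⟩ := pow_sev h1 hi Z₂
  exact ⟨g₁ ^ 17, g₂ ^ 17, _, _, by rw [map_pow, e₁, hA₁], by rw [map_pow, e₂, hA₂],
    h3.mod h2 A₁ A₂⟩

theorem Full.step [IsDomain O] (hw : Deg1 w) (h : Cong w ρ) {i : ℕ} (hi : 1 ≤ i)
    (hf : Full w ρ i) : 17 ^ 2 * (stab h i).index ≤ (stab h (i + 1)).index := by
  obtain ⟨g₁, g₂, Z₁, Z₂, e₁, e₂, h3⟩ := hf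
  have h1 : ∀ s t : ℕ, ∃ z : Fin 3 → O, ρ (g₁ ^ s * g₂ ^ t) *ᵥ pt =
      pt + w ^ i • ((s : O) • (Z₁ *ᵥ pt) + (t : O) • (Z₂ *ᵥ pt) + w • z) := by
    intro s t
    obtain ⟨A₁, hA₁⟩ := pow_lev (w := w) hi Z₁ s
    obtain ⟨A₂, hA₂⟩ := pow_lev (w := w) hi Z₂ t
    obtain ⟨j, rfl⟩ : ∃ j, i = j + 1 := ⟨i - 1, by omega⟩
    refine ⟨A₁ *ᵥ pt + A₂ *ᵥ pt +
      w ^ j • (((s : O) • Z₁ + w • A₁) *ᵥ (((t : O) • Z₂ + w • A₂) *ᵥ pt)), ?_⟩
    rw [map_mul, map_pow, map_pow, e₁, e₂, hA₁, hA₂, ← mulVec_mulVec]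
    simp only [add_mulVec, one_mulVec, smul_mulVec, mulVec_add, mulVec_smul]
    module
  have h2 : ∀ s t : ℕ, g₁ ^ s * g₂ ^ t ∈ stab h i := fun s t => by
    obtain ⟨z, hz⟩ := h1 s t
    exact ⟨1, _, by rw [hz, one_smul]⟩
  have h4 := Subgroup.relIndex_mul_index (stab_anti h i)
  have h5 := (index_le hw h (i + 1)).1
  have h6 : (stab h (i + 1)).relIndex (stab h i) ≠ 0 := fun h0 => h5 (by rw [← h4, h0, zero_mul])
  have : Finite (stab h i ⧸ (stab h (i + 1)).subgroupOf (stab h i)) :=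
    Nat.finite_of_card_ne_zero h6
  have h7 : Function.Injective fun n : Fin 17 × Fin 17 =>
      (QuotientGroup.mk ⟨_, h2 n.1 n.2⟩ :
        stab h i ⧸ (stab h (i + 1)).subgroupOf (stab h i)) := by
    rintro ⟨s, t⟩ ⟨s', t'⟩ he
    have h8 := QuotientGroup.eq.1 he
    rw [Subgroup.mem_subgroupOf] at h8
    obtain ⟨l, y, hy⟩ := (inv_mul_mem h).1 h8
    obtain ⟨z, hz⟩ := h1 s t
    obtain ⟨z', hz'⟩ := h1 s' t'
    rw [hz, hz'] at hy
    obtain ⟨c₁, hc₁⟩ := h3.fst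
    obtain ⟨c₂, hc₂⟩ := h3.snd
    have h9 := fun j => congrFun hy j
    simp only [Pi.add_apply, Pi.smul_apply, smul_eq_mul, pt] at h9
    have h10 := h9 0
    rw [hc₁, hc₂] at h10
    obtain ⟨c, hc⟩ : ∃ c, l = 1 + w ^ i * w * c :=
      ⟨(s' * c₁ + t' * c₂ + z' 0) - l * (s * c₁ + t * c₂ + z 0) - y 0, by
        linear_combination -h10⟩
    obtain ⟨h11, h12⟩ := h3.ind ((s' : ℕ) - (s : ℕ)) ((t' : ℕ) - (t : ℕ)) fun j => by
      refine ⟨c * (1 + w ^ i * (s * (Z₁ *ᵥ pt) j + t * (Z₂ *ᵥ pt) j + w * z j)) + z j - z' j + y j,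
        mul_left_cancel₀ (pow_ne_zero i hw.ne) ?_⟩
      have h13 := h9 j
      rw [hc] at h13
      linear_combination h13
    have h14 := hw.int ((s' : ℕ) - (s : ℕ)) (by exact_mod_cast h11)
    have h15 := hw.int ((t' : ℕ) - (t : ℕ)) (by exact_mod_cast h12)
    have := s.2
    have := s'.2
    have := t.2
    have := t'.2
    exact Prod.ext (Fin.ext (by simp only; omega)) (Fin.ext (by simp only; omega))
  have h8 := Nat.card_le_card_of_injective _ h7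
  rw [Nat.card_prod, Nat.card_fin] at h8
  rw [← h4]
  exact Nat.mul_le_mul_right _ h8

theorem Full.index [IsDomain O] (hw : Deg1 w) (h : Cong w ρ) {i : ℕ} (hi : 1 ≤ i)
    (hf : Full w ρ i) (m : ℕ) : 17 ^ (2 * m) ∣ (stab h (i + m)).index := by
  have h1 : Full w ρ (i + m) ∧ 17 ^ (2 * m) ≤ (stab h (i + m)).index := by
    induction m with
    | zero => exact ⟨hf, Nat.one_le_iff_ne_zero.2 (index_le hw h _).1⟩
    | succ m ih =>
      have h2 : 1 ≤ i + m := Nat.le_add_right_of_le hi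
      refine ⟨ih.1.succ hw h2, le_trans ?_ (ih.1.step hw h h2)⟩
      rw [mul_add, pow_add, mul_comm]
      exact Nat.mul_le_mul_left _ ih.2
  obtain ⟨e, he⟩ := index_pow hw h (i + m)
  rw [he] at h1 ⊢
  exact pow_dvd_pow _ ((Nat.pow_le_pow_iff_right (by norm_num)).1 h1.2)

end Pool.Agent.MP_54e5d7_al.ATC.NT
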