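import Pool.Agent.MP_54e5d7_al.atc.ker.Ker
import Pool.Agent.MP_54e5d7_al.atc.nt.Pad

/-!
PROJECT ATC, block NT: explicit elements of the stabiliser of a lattice vector.
-/

set_option autoImplicit false

open Matrix

namespace Pool.Agent.MP_54e5d7_al.Atc.Ar

open Pool.Agent.MP_54e5d7_al.ATC.NT

/-- a prime of degree one over 17 -/
def wp : O := ⟨⟨1, 1⟩, ⟨0, 1⟩⟩

/-- the imaginary unit -/
def iO : O := ⟨0, 1⟩

theorem star_rt' : star rt = rt := by
  apply QuadraticAlgebra.ext <;> simp [rt]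

theorem rt_sq : rt * rt = 2 := by decide

theorem iO_sq : iO * iO = -1 := by decide

theorem star_iO : star iO = -iO := by decide

theorem wp_sev : (17 : O) = wp * ⟨⟨1, 3⟩, ⟨4, -5⟩⟩ := by decide

/-- the absolute norm -/
def nm : O →* ℤ := Zsqrtd.normMonoidHom.comp QuadraticAlgebra.norm

theorem nm_wp : nm wp = 17 := by decide

theorem nm_ne {x : O} (hx : x ≠ 0) : nm x ≠ 0 := by
  refine norm_ne fun h => ?_
  have h1 := QuadraticAlgebra.algebraMap_norm_eq_mul_star x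
  rw [h, map_zero] at h1
  exact mul_ne_zero hx (star_ne_zero.2 hx) h1.symm

theorem deg1 : Deg1 wp := by
  refine ⟨⟨_, 13, wp_sev, ⟨⟨-36, 35⟩, ⟨-40, 11⟩⟩, by decide⟩, fun x => ?_, fun n hn => ?_,
    by decide⟩
  · obtain ⟨⟨a, b⟩, c, d⟩ := x
    have h1 : rt - 6 = wp * ⟨⟨0, -1⟩, ⟨-2, 2⟩⟩ := by decide
    have h2 : iO - 13 = wp * ⟨⟨-1, -2⟩, ⟨-3, 4⟩⟩ := by decide
    have h3 : (⟨⟨a, b⟩, c, d⟩ : O) = a + b * rt + (c + d * rt) * iO := by
      ext <;> simp [rt, iO]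
    obtain ⟨m, hm⟩ : ∃ m : ℤ, m = a + b * 6 + (c + d * 6) * 13 := ⟨_, rfl⟩
    have h4 : ((m % 17).toNat : O) = m - 17 * (m / 17 : ℤ) := by
      have h5 : (((m % 17).toNat : ℕ) : ℤ) = m - 17 * (m / 17) := by omega
      exact_mod_cast congrArg (Int.cast : ℤ → O) h5
    refine ⟨(m % 17).toNat, ?_⟩
    have h5 : (m : O) = a + b * 6 + (c + d * 6) * 13 := by rw [hm]; push_cast; ring
    have h6 : (a + b * rt + (c + d * rt) * iO - ((m % 17).toNat : ℕ) : O) =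
        (b + d * iO) * (rt - 6) + (c + d * 6) * (iO - 13) + 17 * (m / 17 : ℤ) := by
      rw [h4, h5]
      ring
    rw [h3, h6]
    exact dvd_add (dvd_add (Dvd.dvd.mul_left ⟨_, h1⟩ _) (Dvd.dvd.mul_left ⟨_, h2⟩ _))
      (Dvd.dvd.mul_right ⟨_, wp_sev⟩ _)
  · have h1 := map_dvd nm hn
    have h2 : nm (n : O) = n ^ 4 := by
      change (QuadraticAlgebra.norm (n : O)).norm = _
      rw [QuadraticAlgebra.norm_intCast, ← Int.cast_pow, Zsqrtd.norm_intCast]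
      ring
    rw [nm_wp, h2] at h1
    exact (Int.prime_iff_natAbs_prime.2 (by norm_num)).dvd_of_dvd_pow h1

theorem exists_val {b : O} (hb : b ≠ 0) :
    ∃ (i : ℕ) (u u' : O), b = wp ^ i * u ∧ wp ∣ u * u' - 1 := by
  classical
  have h1 : ∃ i, ¬wp ^ (i + 1) ∣ b := ⟨(nm b).natAbs, fun h => by
    have h2 := map_dvd nm h
    rw [map_pow, nm_wp] at h2
    have h3 := Nat.le_of_dvd (Int.natAbs_pos.2 (nm_ne hb)) (Int.natAbs_dvd_natAbs.2 h2)
    rw [Int.natAbs_pow] at h3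
    have h4 := Nat.lt_pow_self (n := (nm b).natAbs + 1) (show 1 < (17 : ℤ).natAbs by norm_num)
    omega⟩
  obtain ⟨u, hu⟩ : wp ^ Nat.find h1 ∣ b := by
    rcases Nat.eq_zero_or_pos (Nat.find h1) with h | h
    · simp [h]
    · have h2 := Nat.find_min h1 (Nat.sub_lt h one_pos)
      rwa [not_not, Nat.sub_add_cancel (show 1 ≤ Nat.find h1 from h)] at h2
  have h2 : ¬wp ∣ u := fun ⟨c, hc⟩ => Nat.find_spec h1 ⟨c, by rw [pow_succ, mul_assoc, ← hc, ← hu]⟩
  obtain ⟨n, hn⟩ := deg1.res u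
  have h3 : ¬17 ∣ n := fun ⟨c, hc⟩ => h2 (by
    have h4 : wp ∣ (n : O) := by
      rw [hc]
      push_cast
      exact Dvd.dvd.mul_right ⟨_, wp_sev⟩ _
    simpa using dvd_add hn h4)
  obtain ⟨p, q, hpq⟩ := Nat.isCoprime_iff_coprime.2
    ((Nat.Prime.coprime_iff_not_dvd (by norm_num : Nat.Prime 17)).2 h3)
  have h4 : (p : O) * 17 + q * n = 1 := by exact_mod_cast congrArg (Int.cast : ℤ → O) hpq
  refine ⟨_, u, q, hu, ?_⟩
  have h5 : u * q - 1 = (u - n) * q - 17 * p := by linear_combination h4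
  rw [h5]
  exact dvd_sub (hn.mul_right _) (Dvd.dvd.mul_right ⟨_, wp_sev⟩ _)

/-- the rank one matrix `y ↦ h(y, q) p` -/
def rk (p q : L3) : M3 := vecMulVec p ![star (q 0), star (q 1), -(rt * star (q 2))]

theorem rk_apply (p q y : L3) (i : Fin 3) : (rk p q *ᵥ y) i = hO y q * p i := by
  simp [rk, hO, mulVec, dotProduct, Fin.sum_univ_three, vecMulVec_apply]
  ring

def nn (x : L3) : O := x 0 * star (x 0) + x 1 * star (x 1)

def uu (x : L3) : L3 := ![-star (x 1), star (x 0), 0]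

def vv (x : L3) : L3 := ![rt * x 0 * star (x 2), rt * x 1 * star (x 2), nn x]

/-- a skew-hermitian matrix that kills `x` -/
def YY (θ : O) (x : L3) : M3 := θ • rk (vv x) (uu x) - star θ • rk (uu x) (vv x)

/-- the element of the stabiliser -/
def gg (θ c b : O) (x : L3) : M3 := 1 + (c • (hO x x • 1 - rk x x) + b • YY θ x)

theorem gg_apply (θ c b : O) (x y : L3) (i : Fin 3) : (gg θ c b x *ᵥ y) i =
    y i + (c * (hO x x * y i - hO y x * x i) +
      b * (θ * (hO y (uu x) * vv x i) - star θ * (hO y (vv x) * uu x i))) := by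
  simp only [gg, YY, add_mulVec, sub_mulVec, smul_mulVec, one_mulVec, Pi.add_apply, Pi.sub_apply,
    Pi.smul_apply, rk_apply, smul_eq_mul]

theorem gg_fix (θ c b : O) (x : L3) : gg θ c b x *ᵥ x = x := by
  funext i
  have h1 : hO x (uu x) = 0 := by
    simp [hO, uu]
    ring
  have h2 : hO x (vv x) = 0 := by
    simp [hO, vv, nn, star_rt']
    ring
  rw [gg_apply, h1, h2]
  ring

theorem gg_det {θ c b : O} {x : L3} (hθ : θ * star θ = 1)
    (h : 2 * c + c ^ 2 * hO x x = rt * nn x ^ 2 * b ^ 2) : (gg θ c b x).det = 1 := by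
  have h1 : (gg θ c b x).det =
      (1 + c * hO x x) ^ 2 - θ * star θ * (rt * nn x ^ 2 * hO x x * b ^ 2) := by
    simp [det_fin_three, gg, YY, rk, uu, vv, nn, hO, star_rt']
    ring
  rw [h1, hθ]
  linear_combination hO x x * h

theorem gg_hO {θ c b : O} {x : L3} (hθ : θ * star θ = 1) (hc : star c = c) (hb : star b = b)
    (h : 2 * c + c ^ 2 * hO x x = rt * nn x ^ 2 * b ^ 2) (y z : L3) :
    hO (gg θ c b x *ᵥ y) (gg θ c b x *ᵥ z) = hO y z := by
  have h1 : hO (gg θ c b x *ᵥ y) (gg θ c b x *ᵥ z) = hO y z +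
      (2 * c + c ^ 2 * hO x x - θ * star θ * (rt * nn x ^ 2 * b ^ 2)) *
        (hO x x * hO y z - hO y x * hO x z) := by
    rw [hO, gg_apply, gg_apply, gg_apply, gg_apply, gg_apply, gg_apply]
    simp [uu, vv, nn, hO, star_rt', hc, hb]
    ring
  rw [h1, hθ, h]
  ring

theorem indep_YY {x : L3} (hx : x ∈ Vec) : Indep wp (YY 1 x) (YY iO x) := by
  obtain ⟨u, rfl⟩ := hx
  have e : ∀ (θ : O) (x : L3) (j : Fin 3), (YY θ x *ᵥ pt) j =
      θ * (hO pt (uu x) * vv x j) - star θ * (hO pt (vv x) * uu x j) := fun θ x j => by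
    simp only [YY, sub_mulVec, smul_mulVec, Pi.sub_apply, Pi.smul_apply, rk_apply, smul_eq_mul]
  obtain ⟨φ, hφ⟩ : ∃ φ : O →+* O ⧸ Ideal.span {wp}, ∀ a, φ a = 0 ↔ wp ∣ a :=
    ⟨Ideal.Quotient.mk _, fun a => Ideal.Quotient.eq_zero_iff_dvd _ _⟩
  have h17 : (17 : O ⧸ Ideal.span {wp}) = 0 := by
    have h1 := (hφ 17).2 ⟨_, wp_sev⟩
    rwa [map_ofNat] at h1
  have h1 : ∀ (θ : O) (j : Fin 3), φ ((YY θ (![1, 0, 0] + (17 : O) • u) *ᵥ pt) j) =
      ![0, φ (star θ) * φ rt, φ θ] j := fun θ j => by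
    rw [e]
    fin_cases j <;> simp [hO, uu, vv, nn, pt, star_rt', map_ofNat, h17]
  refine ⟨(hφ _).1 (h1 _ _), (hφ _).1 (h1 _ _), fun s t h => ?_⟩
  have h2 := (hφ _).2 (h 1)
  have h3 := (hφ _).2 (h 2)
  rw [map_add, map_mul, map_mul, h1, h1] at h2 h3
  have h4 := congrArg φ rt_sq
  have h5 := congrArg φ iO_sq
  simp [star_iO, map_ofNat] at h2 h3 h4 h5
  refine ⟨(hφ _).1 ?_, (hφ _).1 ?_⟩
  · linear_combination φ s * h17 - 4 * φ rt * h2 - 8 * h3 + 4 * (φ s - φ t * φ iO) * h4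
  · linear_combination φ t * h17 - 4 * φ rt * φ iO * h2 + 8 * φ iO * h3 +
      4 * φ iO * (φ s - φ t * φ iO) * h4 - 16 * φ t * h5

theorem exists_cb {x : L3} (hx : x ∈ Vec) (hp : 0 < (s1 (hO x x)).re) (k : ℕ) :
    ∃ (c b : O), star c = c ∧ star b = b ∧ 2 * c + c ^ 2 * hO x x = rt * nn x ^ 2 * b ^ 2 ∧
      b ≠ 0 ∧ (17 : O) ^ k ∣ c ∧ (17 : O) ^ k ∣ b := by
  have hs : ∀ r : ℤ√2, star (algebraMap (ℤ√2) O r) = algebraMap (ℤ√2) O r := fun r => by
    apply QuadraticAlgebra.ext <;> simp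
  have hN : algebraMap (ℤ√2) O (hO x x).re = hO x x := by
    apply QuadraticAlgebra.ext
    · rfl
    · simp [hO, rt]
      ring
  have hn : algebraMap (ℤ√2) O (nn x).re = nn x := by
    apply QuadraticAlgebra.ext
    · rfl
    · simp [nn]
      ring
  have h0 : x 0 ≠ 0 := fun h => by
    obtain ⟨u, rfl⟩ := hx
    have h1 : wp ∣ ((1 : ℤ) : O) := ⟨-(⟨⟨1, 3⟩, ⟨4, -5⟩⟩ * u 0), by
      simp at h
      linear_combination h - u 0 * wp_sev⟩
    have := deg1.int 1 h1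
    omega
  have h1 : 0 < (s2 (nn x)).re := by
    have := Complex.normSq_pos.2 ((map_ne_zero_iff _ s2_inj).2 h0)
    have := Complex.normSq_nonneg (s2 (x 1))
    rw [nn, map_add, map_mul, map_mul, s2_star, s2_star, Complex.mul_conj, Complex.mul_conj,
      Complex.add_re, Complex.ofReal_re, Complex.ofReal_re]
    linarith
  have h2 : 0 < (s2 (hO x x)).re := by
    have h3 : s2 (hO x x) = s2 (nn x) + ((q4 * q4 * Complex.normSq (s2 (x 2)) : ℝ) : ℂ) := by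
      rw [hO, ← nn, map_sub, map_mul, map_mul, s2_star, Complex.mul_conj, s2_rt]
      push_cast
      ring
    have := mul_nonneg (mul_self_nonneg q4) (Complex.normSq_nonneg (s2 (x 2)))
    rw [h3, Complex.add_re, Complex.ofReal_re]
    linarith
  change 0 < t1 (hO x x).re at hp
  change 0 < t2 (nn x).re at h1
  change 0 < t2 (hO x x).re at h2
  have n0 : (nn x).re ≠ 0 := fun h => by simp [h] at h1
  have N0 : (hO x x).re ≠ 0 := fun h => by simp [h] at h2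
  have := nzd
  have r1 : t1 Zsqrtd.sqrtd = √2 := by simp [t1_apply]
  have r2 : t2 Zsqrtd.sqrtd = -√2 := by simp [t2_apply]
  have r3 : 0 < √2 := Real.sqrt_pos.2 (by norm_num)
  obtain ⟨a, b, h3, h4, ⟨c, h5⟩, b', h6⟩ := pell (d := Zsqrtd.sqrtd * (nn x).re ^ 2 * (hO x x).re)
    (M := (hO x x).re * 17 ^ k)
    (by
      rw [map_mul, map_mul, map_pow, r1]
      have := t1_ne n0
      positivity)
    (by
      rw [map_mul, map_mul, map_pow, r2, neg_mul, neg_mul, neg_lt_zero]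
      positivity)
    (mul_ne_zero N0 (pow_ne_zero _ (by decide)))
  refine ⟨algebraMap (ℤ√2) O (17 ^ k * c), algebraMap (ℤ√2) O b, hs _, hs _, ?_,
    fun h => h4 (congrArg QuadraticAlgebra.re h), ⟨algebraMap (ℤ√2) O c, by simp [map_ofNat]⟩,
    ⟨algebraMap (ℤ√2) O ((hO x x).re * b'), ?_⟩⟩
  · have h7 : 2 * (17 ^ k * c) + (17 ^ k * c) ^ 2 * (hO x x).re =
        Zsqrtd.sqrtd * (nn x).re ^ 2 * b ^ 2 := by
      refine sub_eq_zero.1 ((mul_eq_zero.1 (?_ : (hO x x).re * _ = 0)).resolve_left N0)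
      have h8 : a = 1 + (hO x x).re * 17 ^ k * c := by linear_combination h5
      rw [h8] at h3
      linear_combination h3
    have h8 := congrArg (algebraMap (ℤ√2) O) h7
    rw [map_add, map_mul _ 2, map_mul _ (_ ^ 2), map_pow, map_ofNat, hN, map_mul _ _ (b ^ 2),
      map_mul _ Zsqrtd.sqrtd, map_pow _ b, map_pow _ (nn x).re, hn] at h8
    exact h8
  · rw [h6]
    simp only [map_mul, map_pow, map_ofNat]
    ring

theorem exists_full {x : L3} (hx : x ∈ Vec) (hp : 0 < (s1 (hO x x)).re) (k : ℕ) :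
    ∃ i, 1 ≤ i ∧ ∃ (g₁ g₂ : ↥(Gam (17 ^ (k + 1)))) (Z₁ Z₂ : M3), rep _ g₁ *ᵥ x = x ∧
      rep _ g₂ *ᵥ x = x ∧ rep _ g₁ = 1 + wp ^ i • Z₁ ∧ rep _ g₂ = 1 + wp ^ i • Z₂ ∧
      Indep wp Z₁ Z₂ := by
  obtain ⟨c, b, h1, h2, h3, h4, ⟨c', h5⟩, b', h6⟩ := exists_cb hx hp (k + 1)
  obtain ⟨i, u, u', h7, h8⟩ := exists_val h4
  have h17 : wp ∣ (17 : O) ^ (k + 1) := dvd_pow ⟨_, wp_sev⟩ k.succ_ne_zero
  have hi : 1 ≤ i := Nat.one_le_iff_ne_zero.2 fun h => by
    rw [h, pow_zero, one_mul] at h7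
    have h9 : wp ∣ u * u' := by
      rw [← h7, h6]
      exact (h17.mul_right _).mul_right _
    have h10 := deg1.int 1 (by simpa using dvd_sub h9 h8)
    omega
  obtain ⟨a, ha⟩ : wp ^ (i + 1) ∣ c := by
    have h9 : wp ∣ (2 + c * hO x x) * 9 - 1 := by
      have h10 : (2 + c * hO x x) * 9 - 1 = 17 + 17 ^ (k + 1) * (c' * hO x x * 9) := by
        rw [h5]
        ring
      rw [h10]
      exact dvd_add ⟨_, wp_sev⟩ (h17.mul_right _)
    obtain ⟨l, hl⟩ := inv_pow_of h9 (i + 1)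
    have h10 : wp ^ (i + 1) ∣ b ^ 2 := by
      rw [h7, mul_pow, ← pow_mul]
      exact (pow_dvd_pow _ (by omega)).mul_right _
    have h11 : c = rt * nn x ^ 2 * 9 * l * b ^ 2 - c * ((2 + c * hO x x) * 9 * l - 1) := by
      linear_combination 9 * l * h3
    rw [h11]
    exact dvd_sub (h10.mul_left _) (hl.mul_left _)
  have key : ∀ θ : O, θ * star θ = 1 → ∃ g : ↥(Gam (17 ^ (k + 1))), rep _ g *ᵥ x = x ∧
      rep _ g = 1 + wp ^ i • (u • YY θ x + wp • (a • (hO x x • 1 - rk x x))) := fun θ hθ => by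
    obtain ⟨g, hg⟩ := exists_rep (M := 17 ^ (k + 1)) (gg_det hθ h3) (gg_hO hθ h1 h2 h3)
      ⟨c' • (hO x x • 1 - rk x x) + b' • YY θ x, by
        rw [gg, h5, h6]
        push_cast
        module⟩
    refine ⟨g, by rw [hg, gg_fix], ?_⟩
    rw [hg, gg, ha, h7]
    module
  obtain ⟨g₁, a₁, b₁⟩ := key 1 (by simp)
  obtain ⟨g₂, a₂, b₂⟩ := key iO (by rw [star_iO, mul_neg, iO_sq, neg_neg])
  exact ⟨i, hi, g₁, g₂, _, _, a₁, a₂, b₁, b₂, (indep_YY hx).mod h8 _ _⟩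

end Pool.Agent.MP_54e5d7_al.Atc.Ar
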